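import Pool.Agent.V1145.SR12

universe u

namespace Pool.Agent.Results.MP_467d59_al.UniformBound

open Pool.Agent.V1145.SR

/-- Let `T` be a total order (finite or infinite) and `Q` a finite poset. Every finitely presented
representation of `T × Q` over a field has a spread-resolution of length at most `2 |Q|`. -/
theorem result {k T Q : Type u} [Field k] [LinearOrder T] [PartialOrder Q] [Finite Q]
    (M : Rep.{u, u, u} k (T × Q)) (hM : FinPres M) : HasSpreadRes (2 * Nat.card Q) M :=
  main M hM

end Pool.Agent.Results.MP_467d59_al.UniformBound
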